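import Mathlib

/-!
Fon-der-Flaass 3-graphs: the analytic part of the bound for orientations of graphs with few
triangles.
-/

set_option autoImplicit false

namespace Pool.Agent.Y47.FDF

open Finset

variable {V : Type} [Fintype V]

def e (a : V → V → ℝ) (x y : V) : ℝ := a x y + a y x
def o (a : V → V → ℝ) (x : V) : ℝ := ∑ y, a x y
def ii (a : V → V → ℝ) (x : V) : ℝ := ∑ y, a y x
def dg (a : V → V → ℝ) (x : V) : ℝ := o a x + ii a x
def mm (a : V → V → ℝ) : ℝ := ∑ x, o a x
def P (a : V → V → ℝ) (x y : V) : ℝ := ∑ z, a x z * a z y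
def E (a : V → V → ℝ) (x y : V) : ℝ := ∑ z, a x z * (1 - e a y z)
def t (a : V → V → ℝ) (x y : V) : ℝ := ∑ z, e a x z * e a z y
def tau (a : V → V → ℝ) : ℝ := ∑ x, ∑ y, a x y * t a x y

theorem e_comm (a : V → V → ℝ) (x y : V) : e a x y = e a y x := add_comm _ _

theorem sum_e (a : V → V → ℝ) (x : V) : ∑ y, e a x y = dg a x := by
  simp only [e, dg, o, ii, sum_add_distrib]

theorem sum_ii (a : V → V → ℝ) : ∑ x, ii a x = mm a := by
  simp only [ii, mm, o]
  exact sum_comm

theorem sum_dg (a : V → V → ℝ) : ∑ x, dg a x = 2 * mm a := by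
  simp only [dg, sum_add_distrib]
  rw [sum_ii]
  simp only [mm]
  ring

theorem L2 (a : V → V → ℝ) (x y : V) :
    ∑ z, (1 - e a x z) * (1 - e a z y) = (Fintype.card V : ℝ) - dg a x - dg a y + t a x y := by
  have h : ∀ z, (1 - e a x z) * (1 - e a z y) = 1 - e a x z - e a y z + e a x z * e a z y := by
    intro z
    rw [e_comm a z y]
    ring
  rw [sum_congr rfl fun z _ => h z]
  rw [sum_add_distrib, sum_sub_distrib, sum_sub_distrib, sum_e, sum_e]
  simp [t]

theorem L3 (a : V → V → ℝ) :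
    ∑ x, ∑ y, a x y * ((Fintype.card V : ℝ) - dg a x - dg a y + t a x y) =
      (Fintype.card V : ℝ) * mm a - ∑ x, dg a x ^ 2 + tau a := by
  have h : ∀ x y, a x y * ((Fintype.card V : ℝ) - dg a x - dg a y + t a x y) =
      (Fintype.card V : ℝ) * a x y - dg a x * a x y - dg a y * a x y + a x y * t a x y := by
    intro x y; ring
  simp only [h, sum_add_distrib, sum_sub_distrib, ← mul_sum]
  have h1 : ∑ x, ∑ y, dg a y * a x y = ∑ y, dg a y * ii a y := by
    rw [sum_comm]
    refine sum_congr rfl fun y _ => ?_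
    rw [← mul_sum]
    rfl
  rw [h1]
  have h2 : ∑ x, dg a x ^ 2 = ∑ x, dg a x * o a x + ∑ x, dg a x * ii a x := by
    rw [← sum_add_distrib]
    refine sum_congr rfl fun x _ => ?_
    simp only [dg]; ring
  rw [h2]
  simp only [mm, tau]
  have h3 : ∑ x, dg a x * ∑ y, a x y = ∑ x, dg a x * o a x := rfl
  rw [h3]
  have h4 : ∑ x, ∑ y, a x y = ∑ x, o a x := rfl
  rw [h4]
  ring

/-- the properties of the indicator function of an oriented graph without induced 4-cycle -/
structure Good (a : V → V → ℝ) : Prop where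
  h01 : ∀ x y, a x y = 0 ∨ a x y = 1
  hor : ∀ x y, a x y = 0 ∨ a y x = 0
  hC : ∀ x y x' y', a x y = 1 → a y x' = 1 → a x' y' = 1 → a y' x = 1 →
    e a x x' = 1 ∨ e a y y' = 1

variable {a : V → V → ℝ}

theorem a_nonneg (h : Good a) (x y : V) : 0 ≤ a x y := by
  rcases h.h01 x y with h | h <;> rw [h] <;> norm_num

theorem a_le (h : Good a) (x y : V) : a x y ≤ 1 := by
  rcases h.h01 x y with h | h <;> rw [h] <;> norm_num

theorem e_nonneg (h : Good a) (x y : V) : 0 ≤ e a x y :=
  add_nonneg (a_nonneg h _ _) (a_nonneg h _ _)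

theorem e_le (h : Good a) (x y : V) : e a x y ≤ 1 := by
  unfold e
  rcases h.hor x y with h' | h' <;> rw [h'] <;> have := a_le h x y <;> have := a_le h y x <;>
    linarith

theorem a_le_e (h : Good a) (x y : V) : a x y ≤ e a x y := by
  have := a_nonneg h y x
  unfold e; linarith

theorem P_nonneg (h : Good a) (x y : V) : 0 ≤ P a x y :=
  sum_nonneg fun z _ => mul_nonneg (a_nonneg h _ _) (a_nonneg h _ _)

theorem E_nonneg (h : Good a) (x y : V) : 0 ≤ E a x y :=
  sum_nonneg fun z _ => mul_nonneg (a_nonneg h _ _) (by have := e_le h y z; linarith)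

theorem t_nonneg (h : Good a) (x y : V) : 0 ≤ t a x y :=
  sum_nonneg fun z _ => mul_nonneg (e_nonneg h _ _) (e_nonneg h _ _)

theorem delta_nonneg (h : Good a) :
    0 ≤ (Fintype.card V : ℝ) * mm a - ∑ x, dg a x ^ 2 + tau a := by
  rw [← L3]
  refine sum_nonneg fun x _ => sum_nonneg fun y _ => mul_nonneg (a_nonneg h _ _) ?_
  rw [← L2]
  refine sum_nonneg fun z _ => mul_nonneg ?_ ?_
  · have := e_le h x z; linarith
  · have := e_le h z y; linarith

theorem PmP (a : V → V → ℝ) (x y : V) :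
    P a x y - P a y x = o a x - o a y - E a x y + E a y x := by
  simp only [P, E, o]
  rw [← sum_sub_distrib, ← sum_sub_distrib, ← sum_sub_distrib, ← sum_add_distrib]
  refine sum_congr rfl fun z _ => ?_
  simp only [e]
  ring

theorem sumE (a : V → V → ℝ) :
    ∑ x, ∑ y, (1 - e a x y) * E a x y =
      (Fintype.card V : ℝ) * mm a - ∑ x, dg a x ^ 2 + tau a := by
  rw [← L3]
  refine sum_congr rfl fun x _ => ?_
  have h1 : ∀ y, (1 - e a x y) * E a x y = ∑ z, a x z * ((1 - e a x y) * (1 - e a y z)) := by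
    intro y
    rw [E, mul_sum]
    refine sum_congr rfl fun z _ => ?_
    ring
  rw [sum_congr rfl fun y _ => h1 y, sum_comm]
  refine sum_congr rfl fun z _ => ?_
  rw [← mul_sum, L2]

theorem sumP (a : V → V → ℝ) : ∑ x, ∑ y, P a x y = ∑ z, ii a z * o a z := by
  simp only [P]
  have h1 : ∀ x, ∑ y, ∑ z, a x z * a z y = ∑ z, a x z * o a z := by
    intro x
    rw [sum_comm]
    refine sum_congr rfl fun z _ => ?_
    rw [← mul_sum]; rfl
  rw [sum_congr rfl fun x _ => h1 x, sum_comm]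
  refine sum_congr rfl fun z _ => ?_
  rw [← sum_mul]; rfl

theorem sum_eP (h : Good a) : ∑ x, ∑ y, e a x y * P a x y ≤ tau a := by
  have h1 : ∀ x, ∑ y, e a x y * P a x y = ∑ z, ∑ y, a x z * (e a x y * a z y) := by
    intro x
    rw [sum_comm]
    refine sum_congr rfl fun y _ => ?_
    rw [P, mul_sum]
    refine sum_congr rfl fun z _ => ?_
    ring
  rw [sum_congr rfl fun x _ => h1 x]
  refine sum_le_sum fun x _ => sum_le_sum fun z _ => ?_
  rw [← mul_sum, t]
  refine mul_le_mul_of_nonneg_left (sum_le_sum fun y _ => ?_) (a_nonneg h _ _)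
  refine mul_le_mul_of_nonneg_left ?_ (e_nonneg h _ _)
  rw [e_comm]
  exact a_le_e h z y

theorem PP_le (h : Good a) :
    ∑ x, ∑ y, (1 - e a x y) * (P a x y * P a y x) ≤ (Fintype.card V : ℝ) * tau a := by
  have h1 : ∀ x y, (1 - e a x y) * (P a x y * P a y x) ≤ ∑ z, a x z * t a x z := by
    intro x y
    have h2 : (1 - e a x y) * (P a x y * P a y x) =
        ∑ z, ∑ w, (1 - e a x y) * (a x z * a z y * (a y w * a w x)) := by
      rw [P, P, sum_mul_sum, mul_sum]
      refine sum_congr rfl fun z _ => ?_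
      rw [mul_sum]
    rw [h2]
    refine sum_le_sum fun z _ => ?_
    rw [t, mul_sum]
    refine sum_le_sum fun w _ => ?_
    have hR : 0 ≤ a x z * (e a x w * e a w z) :=
      mul_nonneg (a_nonneg h _ _) (mul_nonneg (e_nonneg h _ _) (e_nonneg h _ _))
    rcases h.h01 x z with h3 | h3
    · rw [h3]; simp
    rcases h.h01 z y with h4 | h4
    · rw [h4]; simpa using hR
    rcases h.h01 y w with h5 | h5
    · rw [h5]; simpa using hR
    rcases h.h01 w x with h6 | h6
    · rw [h6]; simpa using hR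
    rcases h.hC x z y w h3 h4 h5 h6 with h7 | h7
    · rw [h7]; simpa using hR
    · rw [h3, h4, h5, h6, e_comm a w z, h7]
      have h8 : e a x w = 1 := by
        have h9 := a_le_e h w x
        rw [h6, e_comm] at h9
        exact le_antisymm (e_le h _ _) h9
      rw [h8]
      have := e_nonneg h x y
      linarith
  calc ∑ x, ∑ y, (1 - e a x y) * (P a x y * P a y x)
      ≤ ∑ x, ∑ _y : V, ∑ z, a x z * t a x z :=
        sum_le_sum fun x _ => sum_le_sum fun y _ => h1 x y
    _ = (Fintype.card V : ℝ) * tau a := by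
        simp only [sum_const, card_univ, nsmul_eq_mul, ← mul_sum]
        rfl

theorem sum_sq_diff (f : V → ℝ) :
    ∑ x, ∑ y, (f x - f y) ^ 2 = 2 * (Fintype.card V : ℝ) * ∑ x, f x ^ 2 - 2 * (∑ x, f x) ^ 2 := by
  have h1 : ∀ x y, (f x - f y) ^ 2 = f x ^ 2 - 2 * (f x * f y) + f y ^ 2 := by intro x y; ring
  simp only [h1, sum_add_distrib, sum_sub_distrib, ← mul_sum, ← sum_mul, sum_const, card_univ,
    nsmul_eq_mul]
  ring

theorem minb (p q L : ℝ) (hp : 0 ≤ p) (hq : 0 ≤ q) (hL : 0 < L) :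
    p + q ≤ |p - q| + L + p * q / L := by
  have h0 : ∀ u v : ℝ, 0 ≤ u → u ≤ v → 2 * u ≤ L + u * v / L := by
    intro u v hu huv
    have h1 : u * u / L ≤ u * v / L := by gcongr
    have h2 : 2 * u ≤ L + u * u / L := by
      rw [← sub_nonneg]
      have : L + u * u / L - 2 * u = (L - u) ^ 2 / L := by field_simp; ring
      rw [this]; positivity
    linarith
  rcases le_total p q with h | h
  · have h1 := h0 p q hp h
    rw [abs_of_nonpos (by linarith)]
    linarith
  · have h1 := h0 q p hq h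
    rw [abs_of_nonneg (by linarith), mul_comm p q]
    linarith

theorem absb (u L : ℝ) (hL : 0 < L) : |u| ≤ L / 2 + u ^ 2 / (2 * L) := by
  have h1 : 0 ≤ (L - |u|) ^ 2 / (2 * L) := by positivity
  have h2 : (L - |u|) ^ 2 / (2 * L) = L / 2 + u ^ 2 / (2 * L) - |u| := by
    rw [← sq_abs u]; field_simp; ring
  linarith

theorem sum_P2 (h : Good a) (hN : 0 < Fintype.card V) :
    2 * ∑ x, ∑ y, P a x y ≤
      11 / 100 * (Fintype.card V : ℝ) * ((Fintype.card V : ℝ) ^ 2 - 2 * mm a) +
        5 * ∑ x, o a x ^ 2 - 5 * (mm a ^ 2 / (Fintype.card V : ℝ)) +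
        2 * ((Fintype.card V : ℝ) * mm a - ∑ x, dg a x ^ 2 + tau a) + 102 * tau a := by
  have hN' : (0 : ℝ) < (Fintype.card V : ℝ) := by exact_mod_cast hN
  set N : ℝ := (Fintype.card V : ℝ) with hNdef
  have key : ∀ x y, P a x y + P a y x ≤
      11 / 100 * N * (1 - e a x y) + 5 / (2 * N) * (o a x - o a y) ^ 2 +
        ((1 - e a x y) * E a x y + (1 - e a y x) * E a y x) +
        100 / N * ((1 - e a x y) * (P a x y * P a y x)) +
        (e a x y * P a x y + e a y x * P a y x) := by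
    intro x y
    have h1 := minb (P a x y) (P a y x) (N / 100) (P_nonneg h _ _) (P_nonneg h _ _)
      (by positivity)
    have h2 := absb (o a x - o a y) (N / 5) (by positivity)
    have h3 : |P a x y - P a y x| ≤ |o a x - o a y| + E a x y + E a y x := by
      rw [PmP]
      have h4 := E_nonneg h x y
      have h5 := E_nonneg h y x
      rw [abs_le]
      have h6 := le_abs_self (o a x - o a y)
      have h7 := neg_abs_le (o a x - o a y)
      constructor <;> linarith
    have h8 := e_le h x y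
    have h9 := e_nonneg h x y
    have e1 : (o a x - o a y) ^ 2 / (2 * (N / 5)) = 5 / (2 * N) * (o a x - o a y) ^ 2 := by
      field_simp
    have e2 : P a x y * P a y x / (N / 100) = 100 / N * (P a x y * P a y x) := by
      field_simp
    rw [e1] at h2
    rw [e2] at h1
    have h10 : P a x y + P a y x ≤ 11 / 100 * N + 5 / (2 * N) * (o a x - o a y) ^ 2 +
        (E a x y + E a y x) + 100 / N * (P a x y * P a y x) := by linarith
    have h11 := mul_le_mul_of_nonneg_left h10 (by linarith : 0 ≤ 1 - e a x y)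
    have h12 : 0 ≤ e a x y * (5 / (2 * N) * (o a x - o a y) ^ 2) := by positivity
    rw [e_comm a y x]
    nlinarith
  have h0 : 2 * ∑ x, ∑ y, P a x y = ∑ x, ∑ y, (P a x y + P a y x) := by
    simp only [sum_add_distrib]
    rw [sum_comm (f := fun x y => P a y x)]
    ring
  rw [h0]
  refine (sum_le_sum fun x _ => sum_le_sum fun y _ => key x y).trans ?_
  have s1 : ∑ x, ∑ y, (1 - e a x y) = N ^ 2 - 2 * mm a := by
    simp only [sum_sub_distrib, sum_e, sum_dg, sum_const, card_univ, nsmul_eq_mul]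
    ring
  have s3 : ∑ x, ∑ y, (1 - e a y x) * E a y x = ∑ x, ∑ y, (1 - e a x y) * E a x y := sum_comm
  have s4 : ∑ x, ∑ y, e a y x * P a y x = ∑ x, ∑ y, e a x y * P a x y := sum_comm
  simp only [sum_add_distrib, ← mul_sum]
  rw [s1, s3, s4, sumE, sum_sq_diff]
  have h5 := PP_le h
  have h6 := sum_eP h
  have h7 : 100 / N * ∑ x, ∑ y, (1 - e a x y) * (P a x y * P a y x) ≤ 100 * tau a := by
    calc 100 / N * ∑ x, ∑ y, (1 - e a x y) * (P a x y * P a y x) ≤ 100 / N * (N * tau a) :=
          mul_le_mul_of_nonneg_left h5 (by positivity)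
      _ = 100 * tau a := by field_simp
  have h8 : 5 / (2 * N) * (2 * N * ∑ x, o a x ^ 2 - 2 * (∑ x, o a x) ^ 2) =
      5 * ∑ x, o a x ^ 2 - 5 * (mm a ^ 2 / N) := by
    simp only [mm]
    field_simp
  rw [h8]
  linarith

/-- The analytic inequality. -/
theorem analytic (h : Good a) (hN : 0 < Fintype.card V) :
    ∑ x, dg a x ^ 2 - ∑ x, o a x ^ 2 ≤
      179 / 1000 * (Fintype.card V : ℝ) ^ 3 + 225 / 16 * tau a := by
  have hN' : (0 : ℝ) < (Fintype.card V : ℝ) := by exact_mod_cast hN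
  have h1 := sum_P2 h hN
  rw [sumP] at h1
  have hd := delta_nonneg h
  set N : ℝ := (Fintype.card V : ℝ) with hNdef
  have h2 : 2 * ∑ z, ii a z * o a z = 2 * ∑ z, dg a z * o a z - 2 * ∑ x, o a x ^ 2 := by
    rw [mul_sum, mul_sum, mul_sum, ← sum_sub_distrib]
    refine sum_congr rfl fun z _ => ?_
    simp only [dg]; ring
  have h3 : 9 * (mm a ^ 2 / N) - ∑ x, dg a x ^ 2 - ∑ x, o a x ^ 2 ≤ 2 * ∑ z, dg a z * o a z := by
    have h4 : 0 ≤ ∑ x, (dg a x + o a x - 3 * (mm a / N)) ^ 2 :=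
      sum_nonneg fun x _ => sq_nonneg _
    have h5 : ∀ x, (dg a x + o a x - 3 * (mm a / N)) ^ 2 = dg a x ^ 2 + 2 * (dg a x * o a x) +
        o a x ^ 2 - 6 * (mm a / N) * dg a x - 6 * (mm a / N) * o a x + 9 * (mm a / N) ^ 2 := by
      intro x; ring
    simp only [h5, sum_add_distrib, sum_sub_distrib, ← mul_sum, sum_dg, sum_const, card_univ,
      nsmul_eq_mul] at h4
    have h6 : ∑ x, o a x = mm a := rfl
    rw [h6, ← hNdef] at h4
    have h7 : N * (mm a / N) ^ 2 = mm a ^ 2 / N := by field_simp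
    have h8 : 6 * (mm a / N) * (2 * mm a) = 12 * (mm a ^ 2 / N) := by field_simp; ring
    have h9 : 6 * (mm a / N) * mm a = 6 * (mm a ^ 2 / N) := by field_simp
    rw [h7, h8, h9] at h4
    linarith
  have h4 : 4 * (mm a ^ 2 / N) ≤ ∑ x, dg a x ^ 2 := by
    have h4 : 0 ≤ ∑ x, (dg a x - 2 * (mm a / N)) ^ 2 := sum_nonneg fun x _ => sq_nonneg _
    have h5 : ∀ x, (dg a x - 2 * (mm a / N)) ^ 2 = dg a x ^ 2 - 4 * (mm a / N) * dg a x +
        4 * (mm a / N) ^ 2 := by
      intro x; ring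
    simp only [h5, sum_add_distrib, sum_sub_distrib, ← mul_sum, sum_dg, sum_const, card_univ,
      nsmul_eq_mul] at h4
    rw [← hNdef] at h4
    have h7 : N * (mm a / N) ^ 2 = mm a ^ 2 / N := by field_simp
    have h8 : 4 * (mm a / N) * (2 * mm a) = 8 * (mm a ^ 2 / N) := by field_simp; ring
    rw [h7, h8] at h4
    linarith
  have h5 : 257 / 25 * (N * mm a) - 20 * (mm a ^ 2 / N) ≤ 66049 / 50000 * N ^ 3 := by
    have h6 : 66049 / 50000 * N ^ 3 - (257 / 25 * (N * mm a) - 20 * (mm a ^ 2 / N)) =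
        20 * (mm a - 257 / 1000 * N ^ 2) ^ 2 / N := by
      field_simp; ring
    have h7 : 0 ≤ 20 * (mm a - 257 / 1000 * N ^ 2) ^ 2 / N := by positivity
    linarith
  have h6 : 0 ≤ N ^ 3 := by positivity
  nlinarith

end Pool.Agent.Y47.FDF
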